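import Mathlib.Algebra.Order.Archimedean.Real.Basic
import Mathlib.Tactic

/-!
# Abundance for nef divisors on klt varieties with torsion canonical class: fixed Picard number

Let `X` be normal projective klt varieties with `K_X ~_ℚ 0` and `H^1(X, O_X) = 0`, and `L` nef divisors on
`X`; `κ` is the Iitaka dimension and `ν` the numerical dimension of `L`, `ρ(X)` the Picard number. The
symmetric power `X^{(k)} = X^k / S_k` of a variety of dimension at least two is again such a variety (the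
quotient map is étale in codimension one), `Pic(X^k) = Pic(X)^k` since `H^1(X, O_X) = 0`, so that
`ρ(X^{(k)}) = ρ(X)`, and `L ⊠ ⋯ ⊠ L` descends to a nef divisor with the numbers `k κ` and `k ν`. Hence the
question is equivalent, for each value of the Picard number separately, to the inequality
`κ ≥ ν - o(dim X)`, along some dimensions which are highly divisible.
-/

set_option autoImplicit false

namespace Pool.Agent.Results.MP_cda8c3_ag.FixedPicardNumber

universe u

/-- Pairs `(X, L)`: `X` is a normal projective klt variety with `K_X ~_ℚ 0` and `H^1(X, O_X) = 0`, and `L`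
is a nef divisor on `X`. -/
structure NefPairs where
  /-- the pairs -/
  Pair : Type u
  /-- the dimension of `X` -/
  dim : Pair → ℕ
  /-- the Picard number of `X` -/
  rho : Pair → ℕ
  /-- the Iitaka dimension of `L`, in `ℕ ∪ {-∞}` -/
  kappa : Pair → WithBot ℕ
  /-- the numerical dimension of `L` -/
  nu : Pair → ℕ
  /-- `L` is semiample -/
  Semiample : Pair → Prop

/-- The known properties. -/
structure IsKnown (T : NefPairs.{u}) : Prop where
  /-- `κ ≤ ν` -/
  kappa_le : ∀ P, T.kappa P ≤ T.nu P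
  /-- Kawamata: `L` is semiample if and only if `κ = ν` -/
  semiample_iff : ∀ P, T.Semiample P ↔ T.kappa P = T.nu P
  /-- `L` is semiample if `dim X ≤ 1` (there are no such curves `X`) -/
  small : ∀ P, T.dim P ≤ 1 → T.Semiample P
  /-- the symmetric power `(X^{(k)}, L^{(k)})`, `dim X ≥ 2`, `k ≥ 1` -/
  symmetric : ∀ (P : T.Pair) (k : ℕ), 2 ≤ T.dim P → 1 ≤ k → ∃ R : T.Pair,
    T.dim R = k * T.dim P ∧ T.rho R = T.rho P ∧ T.kappa R = k • T.kappa P ∧ T.nu R = k * T.nu P

variable {T : NefPairs.{u}}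

/-- Question Q1. -/
def Conjecture (T : NefPairs.{u}) : Prop := ∀ P : T.Pair, T.Semiample P

/-- Question Q1 for the varieties of Picard number `r`. -/
def ConjectureRho (T : NefPairs.{u}) (r : ℕ) : Prop :=
  ∀ P : T.Pair, T.rho P = r → T.Semiample P

/-- `κ = -∞` or `ν - κ ≥ t`. -/
def Gap (P : T.Pair) (t : ℕ) : Prop := ∀ d : ℕ, T.kappa P = d → d + t ≤ T.nu P

/-- `κ ≥ 0` and `κ ≥ ν - c dim X`. -/
def Weak (c : ℝ) (P : T.Pair) : Prop :=
  ∃ d : ℕ, T.kappa P = d ∧ (T.nu P : ℝ) - c * T.dim P ≤ d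

theorem nsmul_eq_coe (k : ℕ) (hk : 1 ≤ k) (x : WithBot ℕ) (d : ℕ) (h : k • x = d) :
    ∃ e : ℕ, x = e ∧ d = k * e := by
  cases x with
  | bot =>
    exfalso
    obtain ⟨m, rfl⟩ : ∃ m, k = m + 1 := ⟨k - 1, by omega⟩
    rw [succ_nsmul, WithBot.add_bot] at h
    exact absurd h (by simp)
  | coe x =>
    refine ⟨x, rfl, ?_⟩
    rw [← WithBot.coe_nsmul] at h
    have h1 : WithBot.some (k • x) = WithBot.some d := h
    have h2 := WithBot.coe_injective h1
    rw [← h2, smul_eq_mul]

theorem gap_one (hT : IsKnown T) {P : T.Pair} (h : ¬ T.Semiample P) : Gap P 1 := by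
  intro d hd
  rw [hT.semiample_iff, hd] at h
  have h1 := hT.kappa_le P
  rw [hd] at h1
  have h2 : d ≤ T.nu P := WithBot.coe_le_coe.1 h1
  have h3 : d ≠ T.nu P := fun e => h (by rw [e])
  omega

theorem powers (hT : IsKnown T) (P : T.Pair) (hP : ¬ T.Semiample P) (k : ℕ) (hk : 1 ≤ k) :
    ∃ R : T.Pair, T.rho R = T.rho P ∧ T.dim R = k * T.dim P ∧ Gap R k := by
  have h2 : 2 ≤ T.dim P := by
    by_contra h
    exact hP (hT.small P (by omega))
  obtain ⟨R, e1, e2, e3, e4⟩ := hT.symmetric P k h2 hk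
  refine ⟨R, e2, e1, fun d hd => ?_⟩
  rw [e3] at hd
  obtain ⟨e, h3, rfl⟩ := nsmul_eq_coe k hk _ _ hd
  have h4 := gap_one hT hP e h3
  rw [e4]
  calc k * e + k = k * (e + 1) := by ring
    _ ≤ k * T.nu P := Nat.mul_le_mul_left _ h4

theorem dim_pos (hT : IsKnown T) {P : T.Pair} (hP : ¬ T.Semiample P) : 0 < T.dim P := by
  by_contra h
  exact hP (hT.small P (by omega))

theorem not_weak {R : T.Pair} {k n₀ : ℕ} (hk : 1 ≤ k) (hn : 0 < n₀) (hd : T.dim R = k * n₀)
    (hg : Gap R k) : ¬ Weak (1 / (2 * n₀)) R := by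
  rintro ⟨d, h1, h2⟩
  have h3 := hg d h1
  rw [hd] at h2
  have h4 : ((d : ℝ) + k) ≤ T.nu R := by exact_mod_cast h3
  have hn0 : (0 : ℝ) < n₀ := by exact_mod_cast hn
  have hk0 : (1 : ℝ) ≤ k := by exact_mod_cast hk
  have h5 : 1 / (2 * (n₀ : ℝ)) * ((k * n₀ : ℕ) : ℝ) = k / 2 := by
    push_cast
    field_simp
  rw [h5] at h2
  linarith

theorem weak_of (hT : IsKnown T) {P : T.Pair} (hP : T.Semiample P) {c : ℝ} (hc : 0 < c) :
    Weak c P := by
  refine ⟨T.nu P, (hT.semiample_iff P).1 hP, ?_⟩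
  have : 0 ≤ c * (T.dim P : ℝ) := by positivity
  linarith

/-- **Fixed Picard number.** For all data with the known properties:

* if `L` on `X` is not semiample, then for every `k ≥ 1` there is a variety of the same Picard number and of
  dimension `k dim X` with a nef divisor with `κ = -∞` or `ν - κ ≥ k`;
* for every `r`, Q1 holds for the varieties of Picard number `r` if and only if for every `c > 0` every
  `d ≥ 1` has a multiple `n ≥ 1` such that `κ ≥ 0` and `κ ≥ ν - c n` for all nef divisors on the varieties of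
  Picard number `r` and dimension `n`;
* Q1 holds if and only if for every `c > 0` every `d ≥ 1` has a multiple `n ≥ 1` such that `κ ≥ 0` and
  `κ ≥ ν - c n` for all nef divisors on the varieties of dimension `n`. -/
theorem result (T : NefPairs.{u}) (hT : IsKnown T) :
    (∀ P : T.Pair, ¬ T.Semiample P → ∀ k : ℕ, 1 ≤ k → ∃ R : T.Pair, T.rho R = T.rho P ∧
      T.dim R = k * T.dim P ∧ Gap R k) ∧
    (∀ r : ℕ, ConjectureRho T r ↔ ∀ c : ℝ, 0 < c → ∀ d : ℕ, 1 ≤ d → ∃ n : ℕ, 1 ≤ n ∧ d ∣ n ∧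
      ∀ P : T.Pair, T.rho P = r → T.dim P = n → Weak c P) ∧
    (Conjecture T ↔ ∀ c : ℝ, 0 < c → ∀ d : ℕ, 1 ≤ d → ∃ n : ℕ, 1 ≤ n ∧ d ∣ n ∧
      ∀ P : T.Pair, T.dim P = n → Weak c P) := by
  refine ⟨powers hT, fun r => ⟨fun h c hc d hd => ⟨d, hd, dvd_rfl, fun P hr _ => weak_of hT (h P hr) hc⟩,
    fun h P hr => ?_⟩, ⟨fun h c hc d hd => ⟨d, hd, dvd_rfl, fun P _ => weak_of hT (h P) hc⟩,
    fun h P => ?_⟩⟩
  · by_contra hP
    have hd := dim_pos hT hP
    have hd0 : (0 : ℝ) < T.dim P := by exact_mod_cast hd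
    obtain ⟨n, hn, ⟨k, rfl⟩, hall⟩ := h (1 / (2 * T.dim P)) (by positivity) (T.dim P) hd
    have hk : 1 ≤ k := by
      rcases Nat.eq_zero_or_pos k with rfl | hk
      · omega
      · exact hk
    obtain ⟨R, h1, h2, h3⟩ := powers hT P hP k hk
    exact not_weak hk hd h2 h3 (hall R (h1.trans hr) (by rw [h2, mul_comm]))
  · by_contra hP
    have hd := dim_pos hT hP
    have hd0 : (0 : ℝ) < T.dim P := by exact_mod_cast hd
    obtain ⟨n, hn, ⟨k, rfl⟩, hall⟩ := h (1 / (2 * T.dim P)) (by positivity) (T.dim P) hd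
    have hk : 1 ≤ k := by
      rcases Nat.eq_zero_or_pos k with rfl | hk
      · omega
      · exact hk
    obtain ⟨R, h1, h2, h3⟩ := powers hT P hP k hk
    exact not_weak hk hd h2 h3 (hall R (by rw [h2, mul_comm]))

end Pool.Agent.Results.MP_cda8c3_ag.FixedPicardNumber
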