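import Pool.Agent.Q82.TQ.Gen

set_option autoImplicit false

/-!
# Abundance for line bundles on quotients of complex tori, with a uniform exponent

Let `X = V / Γ` be the quotient of a complex torus of dimension `d`, projective or not, by any finite
group. Then `X` is klt, and `K_X ~_ℚ 0` if the quotient map is unramified in codimension one. There is
a number `m ≥ 1` which only depends on the dimension `d`, such that for all these `X` with
`H^1(X, O_X) = 0` the following are equivalent for a line bundle `L` on `X`: `L` is nef; `L` is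
pseudo-effective; `L ^ m` is globally generated. If `H^1(X, O_X) ≠ 0` then there is a
numerically trivial line bundle on `X` none of whose powers has a nonzero section, so that the
condition `H^1(X, O_X) = 0` is necessary.

The proof: by a lemma of Minkowski the order of the finite group `G` of the linear parts of `Γ` is
bounded in terms of `d`, since `G` acts faithfully on the lattice modulo `3`. Products of theta
functions give a globally generated line bundle `L'` with the same Chern form as `L ^ (4 |G| ^ 3)`, and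
`L'` and `L ^ (4 |G| ^ 3)` differ by a unitary character of `Γ`, which has order at most `|G| ^ 2` if
`H^1(X, O_X) = 0`.

`latt`, `IsTorusQuotient` and `LineBundle` are defined in `Pool.Agent.W594.SYZ.Defs2`; `IsChernForm`,
`IsNefForm` and `Induces` in `Pool.Agent.W594.SYZ.TQDefs`; `HOneZero`, `IsFibration` and `IsFlat` in
`Pool.Agent.TH735.AQ.Defs`; `IsLogPsh` and `IsPseudoEffective` in `Pool.Agent.TH128.SYZ.PsefDefs`;
`IsGloballyGenerated` in `Pool.Agent.Q82.TQ.Gen`.
-/

namespace Pool.Agent.Results.MP_cda8c3_ag.UniformTorusQuotients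

open Pool.Agent.W594.SYZ2 Pool.Agent.W594.SYZ2.TQ Pool.Agent.TH735.AQ Pool.Agent.TH128.SYZ
open Pool.Agent.Q82.TQ

universe u

/-- For each `d` there is `m ≥ 1` such that for all torus quotients `X = V / Γ` of dimension `d`:

* if `H^1(X, O_X) = 0`, a line bundle `L` on `X` with Chern form `H` is nef if and only if it is
  pseudo-effective, if and only if `L ^ m` is globally generated; and in this case a power of `L` is the
  pullback of an ample line bundle under the fibration given by the kernel of `H`;
* if `H^1(X, O_X) ≠ 0`, there is a flat (hence nef) line bundle `L` on `X` such that `L ^ k` has no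
  nonzero section for any `k ≥ 1`. -/
theorem result (d : ℕ) : ∃ m : ℕ, 0 < m ∧
    ∀ {V : Type u} [NormedAddCommGroup V] [NormedSpace ℂ V] [FiniteDimensional ℂ V],
      Module.finrank ℂ V = d → ∀ (Γ : Subgroup (V ≃ᵃ[ℂ] V)), IsTorusQuotient Γ →
      (HOneZero Γ → ∀ (L : LineBundle Γ) (H : V → V → ℂ), IsChernForm L H →
        (IsNefForm H ↔ IsPseudoEffective L) ∧
        (IsNefForm H ↔ IsGloballyGenerated (L.pow m)) ∧
        (IsNefForm H → ∃ (n : ℕ) (Δ : Subgroup ((Fin n → ℂ) ≃ᵃ[ℂ] (Fin n → ℂ)))
          (π : V →ₗ[ℂ] (Fin n → ℂ)), (∀ v, π v = 0 ↔ ∀ w, H v w = 0) ∧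
            IsFibration Γ Δ π ∧ Induces L Δ π)) ∧
      (¬ HOneZero Γ → ∃ L : LineBundle Γ, IsFlat L ∧ IsChernForm L (fun _ _ => 0) ∧
        ∀ k : ℕ, 0 < k → ∀ s, (L.pow k).IsSection s → s = 0) := by
  refine ⟨4 * (Nat.factorial (3 ^ ((2 * d) ^ 2))) ^ 5, by positivity, ?_⟩
  intro V _ _ _ hd Γ hΓ
  have hdvd : 4 * Nat.card (Lin Γ) ^ 5 ∣ 4 * (Nat.factorial (3 ^ ((2 * d) ^ 2))) ^ 5 := by
    refine mul_dvd_mul_left 4 (pow_dvd_pow_of_dvd ?_ 5)
    have h1 := card_le hΓ
    rw [hd] at h1
    exact Nat.dvd_factorial (Pool.Agent.Y167.card_pos hΓ) h1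
  constructor
  · intro h01 L H hc
    refine ⟨(psef_iff_nef hΓ hc).symm, ⟨fun hn => gg_of_dvd (effective hΓ h01 hc hn) hdvd,
      fun hg => nef_of_gg hΓ hc (by positivity) hg⟩, fun hn => semiample hΓ h01 hc hn⟩
  · intro h01
    obtain ⟨P, hP, hno⟩ := exists_flat_no_section hΓ h01
    exact ⟨P, hP, chern_of_flat hP, hno⟩

end Pool.Agent.Results.MP_cda8c3_ag.UniformTorusQuotients
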